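import Pool.Agent.Helper92.Ru.GoalsS

/-! Packet GapAll (S18): finiteness of all subspaces with a gap. -/

set_option autoImplicit false

open NumberField

namespace Pool.Agent.Helper41.Ru

open Pool.Agent.Helper92.Ru

theorem gap_mono {k : Type} [Field k] [NumberField k] {T : Finset (FinitePlace k)} {ι : Type}
    [Fintype ι] {A : SP k T → Matrix ι ι k} {w : SP k T → ι → ℝ} {R G G' : ℝ}
    {W : Submodule k (ι → k)} (hR : 0 < R) (hG : G' ≤ G) (h : Gap A w R G W) :
    Gap A w R G' W :=
  ⟨h.1, fun y hy hyW => (mul_le_mul_of_nonneg_left hG hR.le).trans (h.2 y hy hyW)⟩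

/-- a basis of `k^N` adapted to a subspace -/
theorem adapted {k : Type} [Field k] {N p : ℕ} (W : Submodule k (Fin N → k))
    (hW : Module.finrank k W = p) :
    ∃ x : Fin N → Fin N → k, LinearIndependent k x ∧
      W = Submodule.span k (x '' {j | (j : ℕ) < p}) := by
  obtain ⟨W', hc⟩ := Submodule.exists_isCompl W
  have hsum : Module.finrank k W + Module.finrank k W' = N := by
    have := Submodule.finrank_add_eq_of_isCompl hc
    simpa using this
  have hpN : p ≤ N := by omega
  have hW' : Module.finrank k W' = N - p := by omega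
  let b1 := Module.finBasisOfFinrankEq k W hW
  let b2 := Module.finBasisOfFinrankEq k W' hW'
  let v1 : Fin p → Fin N → k := fun i => (b1 i : Fin N → k)
  let v2 : Fin (N - p) → Fin N → k := fun i => (b2 i : Fin N → k)
  have h1 : LinearIndependent k v1 := by
    have := b1.linearIndependent.map' W.subtype (Submodule.ker_subtype W)
    exact this
  have h2 : LinearIndependent k v2 := by
    have := b2.linearIndependent.map' W'.subtype (Submodule.ker_subtype W')
    exact this
  have hs1 : Submodule.span k (Set.range v1) = W := by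
    have h := b1.span_eq
    have h3 := congrArg (Submodule.map W.subtype) h
    rw [Submodule.map_span, Submodule.map_top, Submodule.range_subtype] at h3
    rw [← h3]
    congr 1
    ext z
    constructor
    · rintro ⟨i, rfl⟩
      exact ⟨b1 i, ⟨i, rfl⟩, rfl⟩
    · rintro ⟨_, ⟨i, rfl⟩, rfl⟩
      exact ⟨i, rfl⟩
  have hs2 : Submodule.span k (Set.range v2) = W' := by
    have h := b2.span_eq
    have h3 := congrArg (Submodule.map W'.subtype) h
    rw [Submodule.map_span, Submodule.map_top, Submodule.range_subtype] at h3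
    rw [← h3]
    congr 1
    ext z
    constructor
    · rintro ⟨i, rfl⟩
      exact ⟨b2 i, ⟨i, rfl⟩, rfl⟩
    · rintro ⟨_, ⟨i, rfl⟩, rfl⟩
      exact ⟨i, rfl⟩
  have h12 : LinearIndependent k (Sum.elim v1 v2) := by
    apply h1.sum_type h2
    rw [hs1, hs2]
    exact hc.disjoint
  let φ : Fin N ≃ Fin p ⊕ Fin (N - p) := (finCongr (by omega : N = p + (N - p))).trans
    finSumFinEquiv.symm
  refine ⟨fun j => Sum.elim v1 v2 (φ j), h12.comp φ φ.injective, ?_⟩
  have himg : (fun j => Sum.elim v1 v2 (φ j)) '' {j | (j : ℕ) < p} = Set.range v1 := by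
    ext z
    constructor
    · rintro ⟨j, hj, rfl⟩
      refine ⟨⟨j, hj⟩, ?_⟩
      have : φ j = Sum.inl ⟨j, hj⟩ := by
        apply φ.symm.injective
        rw [φ.symm_apply_apply]
        ext
        simp [φ]
      simp only [this, Sum.elim_inl]
    · rintro ⟨i, rfl⟩
      refine ⟨φ.symm (Sum.inl i), ?_, ?_⟩
      · simp [φ]
      · simp
  rw [himg, hs1]

theorem two_le_choose {N r : ℕ} (h1 : 1 ≤ r) (h2 : r < N) : 2 ≤ N.choose r := by
  obtain ⟨s, rfl⟩ : ∃ s, r = s + 1 := ⟨r - 1, by omega⟩
  obtain ⟨M, rfl⟩ : ∃ M, N = M + 1 := ⟨N - 1, by omega⟩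
  rw [Nat.choose_succ_succ]
  have a : 0 < M.choose s := Nat.choose_pos (by omega)
  have b : 0 < M.choose (s + 1) := Nat.choose_pos (by omega)
  simp only [Nat.succ_eq_add_one]
  omega

theorem gapAll (hH : GapHyp) (hG : WwdGap) (hB : WwdBasic) (hC : CmpdBasic) : GapAll := by
  intro k _ _ T N A hA B δ hδ
  have key : ∀ p : ℕ, p < N → ∃ Q0 : ℝ, 1 ≤ Q0 ∧
      Set.Finite {W : Submodule k (Fin N → k) | Module.finrank k W = p ∧
        ∃ (Q : ℝ) (e : SP k T → Fin N → ℝ) (R : ℝ), Q0 ≤ Q ∧ (∀ v i, |e v i| ≤ B) ∧ 0 < R ∧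
          Gap A (wQ Q e) R (Q ^ δ) W} := by
    intro p hp
    rcases Nat.eq_zero_or_pos p with hp0 | hp0
    · refine ⟨1, le_rfl, (Set.finite_singleton (⊥ : Submodule k (Fin N → k))).subset ?_⟩
      rintro W ⟨hW, -⟩
      rw [hp0] at hW
      exact Submodule.finrank_eq_zero.1 hW
    · obtain ⟨r, hr⟩ : ∃ r, r = N - p := ⟨_, rfl⟩
      have hr1 : 1 ≤ r := by omega
      have hrN : r < N := by omega
      have hpr : p = N - r := by omega
      obtain ⟨C, hC1, hgap⟩ := hG k T r N hr1 hrN A hA
      have hC0 : 0 < C := by linarith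
      have : Nonempty (JJ r N) := by
        obtain ⟨s, -, hs⟩ := Finset.exists_subset_card_eq (s := (Finset.univ : Finset (Fin N)))
          (n := r) (by simp; omega)
        exact ⟨⟨s, hs⟩⟩
      have hcard : 2 ≤ Fintype.card (JJ r N) := by
        have h : Fintype.card (JJ r N) = N.choose r := by
          have := Fintype.card_finset_len (α := Fin N) r
          simp
        rw [h]
        exact two_le_choose hr1 hrN
      obtain ⟨Q1, hQ1, hfin⟩ := hH k T (JJ r N) (fun v => cmpd r (A v))
        (fun v => (hC k r N).2.2.1 (A v) (hA v)) hcard (r * B) (δ / 2) (by linarith)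
      refine ⟨max Q1 (C ^ (2 / δ)), hQ1.trans (le_max_left _ _), ?_⟩
      refine Set.Finite.of_finite_image (f := Wwd r) (hfin.subset ?_) ?_
      · rintro _ ⟨W, ⟨hW, Q, e, R, hQ, he, hR, hgW⟩, rfl⟩
        have hQa : Q1 ≤ Q := (le_max_left _ _).trans hQ
        have hQb : C ^ (2 / δ) ≤ Q := (le_max_right _ _).trans hQ
        have hQ0 : 0 < Q := by linarith
        have hCQ : C ≤ Q ^ (δ / 2) := by
          have h := Real.rpow_le_rpow (by positivity) hQb (by positivity : 0 ≤ δ / 2)
          rw [← Real.rpow_mul hC0.le] at h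
          have h3 : 2 / δ * (δ / 2) = 1 := by field_simp
          rw [h3, Real.rpow_one] at h
          exact h
        have hsq : Q ^ δ = Q ^ (δ / 2) * Q ^ (δ / 2) := by
          rw [← Real.rpow_add hQ0]
          congr 1
          ring
        have hCQ2 : C ≤ Q ^ δ := by
          rw [hsq]
          have h1 : 1 ≤ Q ^ (δ / 2) := hC1.trans hCQ
          calc C ≤ Q ^ (δ / 2) := hCQ
            _ ≤ Q ^ (δ / 2) * Q ^ (δ / 2) := le_mul_of_one_le_left (by linarith) h1
        have hdim : Module.finrank k W + r = N := by omega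
        obtain ⟨R', hR', hg'⟩ := hgap (wQ Q e) R (Q ^ δ)
          (fun v i => Real.rpow_pos_of_pos hQ0 _) hR hCQ2 W hdim hgW
        obtain ⟨x, hx, hxW⟩ := adapted W hW
        have hrank := ((hB k r N hr1 hrN).1 x hx W (by rw [← hpr]; exact hxW)).2
        refine ⟨hrank, Q, fun v K => ∑ a, e v (K.emb a), R', hQa, ?_, hR', ?_⟩
        · intro v K
          calc |∑ a, e v (K.emb a)| ≤ ∑ a, |e v (K.emb a)| := Finset.abs_sum_le_sum_abs _ _
            _ ≤ ∑ _a : Fin r, B := Finset.sum_le_sum fun a _ => he v _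
            _ = r * B := by simp
        · have hw : (fun v (K : JJ r N) => ∏ a, wQ Q e v (K.emb a)) =
              wQ Q (fun v (K : JJ r N) => ∑ a, e v (K.emb a)) := by
            funext v K
            simp only [wQ]
            rw [Real.rpow_sum_of_pos hQ0]
          rw [hw] at hg'
          refine gap_mono hR' ?_ hg'
          rw [le_div_iff₀ hC0, hsq]
          exact mul_le_mul_of_nonneg_left hCQ (by positivity)
      · intro W hW W' hW' h
        exact (hB k r N hr1 hrN).2 W W' (by have := hW.1; omega) (by have := hW'.1; omega) h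
  choose! Q0 hQ0 hfin using key
  have hnn : ∀ p ∈ Finset.range N, (0 : ℝ) ≤ Q0 p := fun p hp =>
    zero_le_one.trans (hQ0 p (Finset.mem_range.1 hp))
  refine ⟨1 + ∑ p ∈ Finset.range N, Q0 p, ?_, ?_⟩
  · have := Finset.sum_nonneg hnn
    linarith
  · refine ((Finset.finite_toSet (Finset.range N)).biUnion
      (fun p hp => hfin p (Finset.mem_range.1 (Finset.mem_coe.1 hp)))).subset ?_
    rintro W ⟨hW, Q, e, R, hQ, he, hR, hg⟩
    have hlt : Module.finrank k W < N := by
      have h := Submodule.finrank_lt hW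
      simpa using h
    simp only [Set.mem_iUnion]
    refine ⟨Module.finrank k W, by simpa using hlt, rfl, Q, e, R, ?_, he, hR, hg⟩
    have h1 := Finset.single_le_sum hnn (Finset.mem_range.2 hlt)
    linarith

end Pool.Agent.Helper41.Ru
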